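import Pool.Agent.helper58.FI.SpecC
import Pool.Agent.helper53.DI.A1

/-!
# Row `fi:FTG`
-/

set_option autoImplicit false

namespace Pool.Agent.FI

open Pool.Agent.helper58.DC Pool.Agent.DI Pool.Agent.GR Pool.Agent.OB Pool.Agent.DR

open Classical in
theorem FTG_ins {Γ : Type} [Group Γ] (D T : Subgroup Γ) (hT : T ≤ nz D) (C : Finset (Subgroup Γ)) :
    T ⊓ nrm (insert D C) = T ⊓ nrm C := by
  ext x
  simp only [Subgroup.mem_inf]
  constructor
  · rintro ⟨h1, h2⟩
    refine ⟨h1, ?_⟩
    unfold nrm at h2 ⊢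
    simp only [Subgroup.mem_iInf] at h2 ⊢
    intro P hP
    exact h2 P (Finset.mem_insert_of_mem hP)
  · rintro ⟨h1, h2⟩
    refine ⟨h1, ?_⟩
    unfold nrm at h2 ⊢
    simp only [Subgroup.mem_iInf] at h2 ⊢
    intro P hP
    rcases Finset.mem_insert.1 hP with rfl | hP
    · exact hT h1
    · exact h2 P hP

open Classical in
theorem FTG_pch {Γ : Type} [Group Γ] {p : ℕ} {D : Subgroup Γ} (hp : IsPGroup p D) {C : Finset (Subgroup Γ)}
    (h : PCh p D ⊥ C) : PCh p D ⊥ (insert D C) where
  chain := by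
    rw [Finset.coe_insert]
    exact h.chain.insert fun Q hQ _ => Or.inr (h.le Q hQ)
  mem := Finset.mem_insert_of_mem h.mem
  bot := fun Q _ => bot_le
  le := by
    intro Q hQ
    rcases Finset.mem_insert.1 hQ with rfl | hQ
    · exact le_rfl
    · exact h.le Q hQ
  pg := by
    intro Q hQ
    rcases Finset.mem_insert.1 hQ with rfl | hQ
    · exact hp
    · exact h.pg Q hQ

open Classical in
theorem FTG_pce {Γ : Type} [Group Γ] {p : ℕ} {D : Subgroup Γ} (hD : D ≠ ⊥) {C : Finset (Subgroup Γ)}
    (h : PCh p D ⊥ C) : PCh p D ⊥ (C.erase D) where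
  chain := h.chain.mono (Finset.coe_subset.2 (Finset.erase_subset _ _))
  mem := Finset.mem_erase.2 ⟨hD.symm, h.mem⟩
  bot := fun Q _ => bot_le
  le := fun Q hQ => h.le Q (Finset.mem_of_mem_erase hQ)
  pg := fun Q hQ => h.pg Q (Finset.mem_of_mem_erase hQ)

open Classical in
theorem FTG : FTG_stmt := by
  intro Γ _ _ p _ D T hp hD hT f
  have hfin : ∀ S : Set (Finset (Subgroup Γ)), S.Finite := fun S => Set.toFinite S
  have hpair : PCh p D ⊥ ({⊥, D} : Finset (Subgroup Γ)) := by
    refine ⟨?_, ?_, ?_, ?_, ?_⟩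
    · intro P hP Q hQ _
      simp only [Finset.coe_insert, Finset.coe_singleton, Set.mem_insert_iff, Set.mem_singleton_iff] at hP hQ
      rcases hP with rfl | rfl
      · exact Or.inl bot_le
      · rcases hQ with rfl | rfl
        · exact Or.inr bot_le
        · exact Or.inl le_rfl
    · simp
    · exact fun Q _ => bot_le
    · intro Q hQ
      simp only [Finset.mem_insert, Finset.mem_singleton] at hQ
      rcases hQ with rfl | rfl
      · exact bot_le
      · exact le_rfl
    · intro Q hQ
      simp only [Finset.mem_insert, Finset.mem_singleton] at hQ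
      rcases hQ with rfl | rfl
      · exact IsPGroup.of_bot
      · exact hp
  have hne : ({⊥, D} : Finset (Subgroup Γ)) ≠ {⊥} := by
    intro h
    have h1 : D ∈ ({⊥, D} : Finset (Subgroup Γ)) := by simp
    rw [h, Finset.mem_singleton] at h1
    exact hD h1
  have hset : {C : Finset (Subgroup Γ) | PCh p D ⊥ C ∧ C ≠ {⊥}} =
      insert ({⊥, D} : Finset (Subgroup Γ))
        {C : Finset (Subgroup Γ) | PCh p D ⊥ C ∧ C ≠ {⊥} ∧ C ≠ {⊥, D}} := by
    ext C
    simp only [Set.mem_insert_iff, Set.mem_ofPred_eq]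
    constructor
    · rintro ⟨h1, h2⟩
      by_cases h3 : C = {⊥, D}
      · exact Or.inl h3
      · exact Or.inr ⟨h1, h2, h3⟩
    · rintro (rfl | ⟨h1, h2, -⟩)
      · exact ⟨hpair, hne⟩
      · exact ⟨h1, h2⟩
  have hnot : ({⊥, D} : Finset (Subgroup Γ)) ∉
      {C : Finset (Subgroup Γ) | PCh p D ⊥ C ∧ C ≠ {⊥} ∧ C ≠ {⊥, D}} := fun h => h.2.2 rfl
  rw [hset, finsum_mem_insert _ hnot (hfin _)]
  have key : ∑ᶠ C ∈ {C : Finset (Subgroup Γ) | PCh p D ⊥ C ∧ C ≠ {⊥} ∧ C ≠ {⊥, D}},
      (-1) ^ (C.card + 1) * (fun C => f (T ⊓ nrm C)) C = 0 := by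
    apply A1 (Subgroup Γ) _ (fun _ => D) (fun C => f (T ⊓ nrm C))
    rintro C ⟨h1, h2, h3⟩ C' (rfl | rfl)
    · refine ⟨⟨FTG_pch hp h1, ?_, ?_⟩, rfl, ?_⟩
      · intro h
        have h4 : D ∈ insert D C := Finset.mem_insert_self _ _
        rw [h, Finset.mem_singleton] at h4
        exact hD h4
      · intro h
        by_cases h4 : D ∈ C
        · rw [Finset.insert_eq_of_mem h4] at h
          exact h3 h
        · apply h2
          ext Q
          rw [Finset.mem_singleton]
          constructor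
          · intro h5
            have h6 : Q ∈ insert D C := Finset.mem_insert_of_mem h5
            rw [h, Finset.mem_insert, Finset.mem_singleton] at h6
            rcases h6 with h6 | h6
            · exact h6
            · rw [h6] at h5
              exact absurd h5 h4
          · rintro rfl
            exact h1.mem
      · show f (T ⊓ nrm (insert D C)) = f (T ⊓ nrm C)
        rw [FTG_ins D T hT C]
    · refine ⟨⟨FTG_pce hD h1, ?_, ?_⟩, rfl, ?_⟩
      · intro h
        by_cases h4 : D ∈ C
        · apply h3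
          rw [← Finset.insert_erase h4, h]
          ext Q
          simp only [Finset.mem_insert, Finset.mem_singleton]
          tauto
        · rw [Finset.erase_eq_of_notMem h4] at h
          exact h2 h
      · intro h
        have h4 : D ∉ C.erase D := Finset.notMem_erase _ _
        rw [h] at h4
        exact h4 (by simp)
      · show f (T ⊓ nrm (C.erase D)) = f (T ⊓ nrm C)
        by_cases h4 : D ∈ C
        · have h5 := FTG_ins D T hT (C.erase D)
          rw [Finset.insert_erase h4] at h5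
          rw [h5]
        · rw [Finset.erase_eq_of_notMem h4]
  rw [show (∑ᶠ C ∈ {C : Finset (Subgroup Γ) | PCh p D ⊥ C ∧ C ≠ {⊥} ∧ C ≠ {⊥, D}},
      (-1) ^ (C.card + 1) * f (T ⊓ nrm C)) = 0 from key, add_zero]
  have hcard : ({⊥, D} : Finset (Subgroup Γ)).card = 2 := Finset.card_pair hD.symm
  have hT2 : T ⊓ nrm ({⊥, D} : Finset (Subgroup Γ)) = T := by
    apply inf_eq_left.2
    unfold nrm
    refine le_iInf₂ fun P hP => ?_
    rw [Finset.mem_insert, Finset.mem_singleton] at hP
    rcases hP with rfl | rfl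
    · rw [Subgroup.normalizer_eq_top]
      exact le_top
    · exact hT
  rw [hcard, hT2]
  ring

end Pool.Agent.FI
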