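import Pool.Agent.helper95.FI.SpecA

set_option autoImplicit false

open Finset

namespace Pool.Agent.FI

private theorem CN1_aux {k x y : ℤ} (hk : 0 < k) (hxy : k ∣ x * y)
    (hq : ∀ d : ℤ, d ∣ k → d ∣ x → d ∣ y → IsUnit d) :
    ((Int.gcd k x : ℕ) : ℤ) * (k / (Int.gcd k x : ℕ)) = k ∧ (k / (Int.gcd k x : ℕ)) ∣ y ∧
      IsCoprime ((Int.gcd k x : ℕ) : ℤ) (k / (Int.gcd k x : ℕ)) := by
  set D : ℤ := ((Int.gcd k x : ℕ) : ℤ) with hD
  have hDk : D ∣ k := Int.gcd_dvd_left _ _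
  have hDx : D ∣ x := Int.gcd_dvd_right _ _
  have hg : Int.gcd k x ≠ 0 := by
    intro h
    rw [Int.gcd_eq_zero_iff] at h
    omega
  have hD0 : D ≠ 0 := by
    rw [hD]
    exact_mod_cast hg
  have h1 : D * (k / D) = k := Int.mul_ediv_cancel' hDk
  have h2 : D * (x / D) = x := Int.mul_ediv_cancel' hDx
  have hgp : 0 < Int.gcd k x := Nat.pos_of_ne_zero hg
  have h3 : IsCoprime (k / D) (x / D) := by
    rw [Int.isCoprime_iff_gcd_eq_one, hD]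
    exact Int.gcd_ediv_gcd_ediv_gcd hgp
  have h4 : (k / D) ∣ y := by
    have h5 : D * (k / D) ∣ D * ((x / D) * y) := by
      rw [h1, ← mul_assoc, h2]
      exact hxy
    exact h3.dvd_of_dvd_mul_left ((mul_dvd_mul_iff_left hD0).mp h5)
  refine ⟨h1, h4, ?_⟩
  rw [Int.isCoprime_iff_gcd_eq_one]
  have h6 : ((Int.gcd D (k / D) : ℕ) : ℤ) ∣ D := Int.gcd_dvd_left _ _
  have h7 : ((Int.gcd D (k / D) : ℕ) : ℤ) ∣ (k / D) := Int.gcd_dvd_right _ _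
  have h8 := hq _ (h6.trans hDk) (h6.trans hDx) (h7.trans h4)
  rw [Int.isUnit_iff] at h8
  omega

private theorem CN1_dvd {z : ℤ × ℤ} {k : ℕ} (h : nn z = k) : (k : ℤ) ∣ z.1 ^ 2 - 8 * z.2 ^ 2 := by
  unfold nn N8 at h
  rw [← h]
  exact Int.natAbs_dvd.mpr dvd_rfl

/-- the second coordinate is prime to the norm -/
private theorem CN1_cop2 {z : ℤ × ℤ} {k : ℕ} (h : nn z = k) (hc : IsCoprime z.1 z.2) :
    IsCoprime z.2 (k : ℤ) := by
  obtain ⟨t, ht⟩ := CN1_dvd h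
  have h1 : IsCoprime z.2 (z.1 ^ 2) := (hc.symm).pow_right
  have h2 : IsCoprime z.2 (z.1 ^ 2 + z.2 * (-(8 * z.2))) := h1.add_mul_left_right _
  have h3 : z.1 ^ 2 + z.2 * (-(8 * z.2)) = (k : ℤ) * t := by rw [← ht]; ring
  rw [h3] at h2
  exact h2.of_mul_right_left

private theorem CN1_cop1 {z : ℤ × ℤ} {k : ℕ} (hk : Odd k) (h : nn z = k) (hc : IsCoprime z.1 z.2) :
    IsCoprime z.1 (k : ℤ) := by
  have h2 := CN1_cop2 h hc
  obtain ⟨t, ht⟩ := CN1_dvd h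
  have h8 : IsCoprime (8 : ℤ) (k : ℤ) := by
    have h9 : Nat.Coprime 8 k := by
      have h10 : Nat.Coprime (2 ^ 3) k := Nat.Coprime.pow_left 3 (Nat.coprime_two_left.mpr hk)
      exact h10
    exact_mod_cast Nat.isCoprime_iff_coprime.mpr h9
  have h3 : IsCoprime (8 * z.2 ^ 2) (k : ℤ) := h8.mul_left h2.pow_left
  have h4 : IsCoprime (8 * z.2 ^ 2 + t * (k : ℤ)) (k : ℤ) := h3.add_mul_right_left t
  have h5 : 8 * z.2 ^ 2 + t * (k : ℤ) = z.1 * z.1 := by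
    have : t * (k : ℤ) = (k : ℤ) * t := mul_comm _ _
    rw [this, ← ht]
    ring
  rw [h5] at h4
  exact h4.of_mul_left_left

private theorem CN1_inj (hDVU : DVU_stmt) {k : ℕ} (hk : Odd k) {z z' : ℤ × ℤ} (hz : Fd z) (hz' : Fd z')
    (hn : nn z = k) (hn' : nn z' = k) (hc : IsCoprime z.1 z.2)
    (h : (k : ℤ) ∣ z.1 * z'.2 - z'.1 * z.2) : z = z' := by
  have hk0 : (k : ℤ) ≠ 0 := by
    have := hk.pos
    omega
  have h2 := CN1_cop2 hn hc
  have hd := CN1_dvd hn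
  -- the first coordinate
  have h3 : (k : ℤ) ∣ z.2 * (z.1 * z'.1 - 8 * z.2 * z'.2) := by
    have h4 : z.2 * (z.1 * z'.1 - 8 * z.2 * z'.2) =
        z'.2 * (z.1 ^ 2 - 8 * z.2 ^ 2) - z.1 * (z.1 * z'.2 - z'.1 * z.2) := by ring
    rw [h4]
    exact dvd_sub (hd.mul_left _) (h.mul_left _)
  have h5 : (k : ℤ) ∣ z.1 * z'.1 - 8 * z.2 * z'.2 := h2.symm.dvd_of_dvd_mul_left h3
  obtain ⟨x, hx⟩ := h5
  obtain ⟨y, hy⟩ := h
  -- `w' = ± (x, -y)`
  have hN' : N8 z' = k ∨ N8 z' = -(k : ℤ) := by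
    unfold nn at hn'
    omega
  have hodd : z.1 % 2 = 1 := hz.1
  rcases hN' with hN | hN
  · refine (hDVU z k z (1, 0) z' (x, -y) hodd hc hz hz' hn hn' ?_ ?_).1
    · unfold mul8
      ext <;> simp
    · unfold mul8
      unfold N8 at hN
      ext
      · apply mul_left_cancel₀ hk0
        simp only
        linear_combination z.1 * hN - z'.1 * hx + 8 * z'.2 * hy
      · apply mul_left_cancel₀ hk0
        simp only
        linear_combination z.2 * hN + z'.1 * hy - z'.2 * hx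
  · refine (hDVU z k z (1, 0) z' (-x, y) hodd hc hz hz' hn hn' ?_ ?_).1
    · unfold mul8
      ext <;> simp
    · unfold mul8
      unfold N8 at hN
      ext
      · apply mul_left_cancel₀ hk0
        simp only
        linear_combination -z.1 * hN + z'.1 * hx - 8 * z'.2 * hy
      · apply mul_left_cancel₀ hk0
        simp only
        linear_combination -z.2 * hN - z'.1 * hy + z'.2 * hx

theorem CN1 (hDVU : DVU_stmt) : CN1_stmt := by
  classical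
  intro k hk
  have hkp : (0 : ℤ) < k := by
    have := hk.pos
    omega
  have hk0 : k ≠ 0 := hk.pos.ne'
  set T : Finset (ℤ × ℤ) := {z ∈ FF k | nn z = k ∧ IsCoprime z.1 z.2} with hT
  have hmem : ∀ z ∈ T, Fd z ∧ nn z = k ∧ IsCoprime z.1 z.2 := by
    intro z hz
    rw [hT, mem_filter] at hz
    have h1 := hz.1
    unfold FF at h1
    rw [mem_filter] at h1
    exact ⟨h1.2.1, hz.2.1, hz.2.2⟩
  rcases T.eq_empty_or_nonempty with h0 | ⟨z₀, hz₀⟩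
  · rw [h0]
    simp
  obtain ⟨hF₀, hn₀, hc₀⟩ := hmem z₀ hz₀
  have hd₀ := CN1_dvd hn₀
  have hl₀ := CN1_cop2 hn₀ hc₀
  -- the main properties of one element
  have main : ∀ z ∈ T, (k : ℤ) ∣ (z.1 * z₀.2 - z.2 * z₀.1) * (z.1 * z₀.2 + z.2 * z₀.1) ∧
      ∀ d : ℤ, d ∣ (k : ℤ) → d ∣ z.1 * z₀.2 - z.2 * z₀.1 → d ∣ z.1 * z₀.2 + z.2 * z₀.1 → IsUnit d := by
    intro z hz
    obtain ⟨hF, hn, hc⟩ := hmem z hz
    have hd := CN1_dvd hn
    constructor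
    · have h1 : (z.1 * z₀.2 - z.2 * z₀.1) * (z.1 * z₀.2 + z.2 * z₀.1) =
          z₀.2 ^ 2 * (z.1 ^ 2 - 8 * z.2 ^ 2) - z.2 ^ 2 * (z₀.1 ^ 2 - 8 * z₀.2 ^ 2) := by ring
      rw [h1]
      exact dvd_sub (hd.mul_left _) (hd₀.mul_left _)
    · intro d hdk hdx hdy
      have h1 : d ∣ 2 * (z.1 * z₀.2) := by
        have := dvd_add hdx hdy
        have h2 : z.1 * z₀.2 - z.2 * z₀.1 + (z.1 * z₀.2 + z.2 * z₀.1) = 2 * (z.1 * z₀.2) := by ring
        rwa [h2] at this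
      have h2 : IsCoprime (2 : ℤ) (k : ℤ) := by
        exact_mod_cast Nat.isCoprime_iff_coprime.mpr (Nat.coprime_two_left.mpr hk)
      have h3 : IsCoprime (2 * (z.1 * z₀.2)) (k : ℤ) := h2.mul_left ((CN1_cop1 hk hn hc).mul_left hl₀)
      have h4 : IsCoprime d d := (h3.of_isCoprime_of_dvd_left h1).of_isCoprime_of_dvd_right hdk
      exact isCoprime_self.mp h4
  refine card_le_card_of_injOn (fun z => Int.gcd (k : ℤ) (z.1 * z₀.2 - z.2 * z₀.1)) ?_ ?_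
  · intro z _
    rw [mem_coe, Nat.mem_divisors]
    refine ⟨?_, hk0⟩
    have := Int.gcd_dvd_left (k : ℤ) (z.1 * z₀.2 - z.2 * z₀.1)
    exact_mod_cast this
  · intro z hz z' hz' heq
    simp only at heq
    rw [mem_coe] at hz hz'
    obtain ⟨hF, hn, hc⟩ := hmem z hz
    obtain ⟨hF', hn', hc'⟩ := hmem z' hz'
    obtain ⟨m1, m2⟩ := main z hz
    obtain ⟨m1', m2'⟩ := main z' hz'
    obtain ⟨a1, a2, a3⟩ := CN1_aux hkp m1 m2
    obtain ⟨b1, b2, b3⟩ := CN1_aux hkp m1' m2'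
    rw [← heq] at b1 b2 b3
    have hx : ((Int.gcd (k : ℤ) (z.1 * z₀.2 - z.2 * z₀.1) : ℕ) : ℤ) ∣ z.1 * z₀.2 - z.2 * z₀.1 :=
      Int.gcd_dvd_right _ _
    have hx' : ((Int.gcd (k : ℤ) (z.1 * z₀.2 - z.2 * z₀.1) : ℕ) : ℤ) ∣ z'.1 * z₀.2 - z'.2 * z₀.1 := by
      rw [heq]
      exact Int.gcd_dvd_right _ _
    set D : ℤ := ((Int.gcd (k : ℤ) (z.1 * z₀.2 - z.2 * z₀.1) : ℕ) : ℤ) with hD
    have hDk : D ∣ (k : ℤ) := Dvd.intro _ a1
    have hmk : (k : ℤ) / D ∣ (k : ℤ) := Dvd.intro_left _ a1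
    apply CN1_inj hDVU hk hF hF' hn hn' hc
    have e1 : D ∣ z.1 * z'.2 - z'.1 * z.2 := by
      have h1 : z₀.2 * (z.1 * z'.2 - z'.1 * z.2) =
          z'.2 * (z.1 * z₀.2 - z.2 * z₀.1) - z.2 * (z'.1 * z₀.2 - z'.2 * z₀.1) := by ring
      have h2 : D ∣ z₀.2 * (z.1 * z'.2 - z'.1 * z.2) := by
        rw [h1]
        exact dvd_sub (hx.mul_left _) (hx'.mul_left _)
      exact (hl₀.symm.of_isCoprime_of_dvd_left hDk).dvd_of_dvd_mul_left h2
    have e2 : (k : ℤ) / D ∣ z.1 * z'.2 - z'.1 * z.2 := by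
      have h1 : z₀.2 * (z.1 * z'.2 - z'.1 * z.2) =
          z'.2 * (z.1 * z₀.2 + z.2 * z₀.1) - z.2 * (z'.1 * z₀.2 + z'.2 * z₀.1) := by ring
      have h2 : (k : ℤ) / D ∣ z₀.2 * (z.1 * z'.2 - z'.1 * z.2) := by
        rw [h1]
        exact dvd_sub (a2.mul_left _) (b2.mul_left _)
      exact (hl₀.symm.of_isCoprime_of_dvd_left hmk).dvd_of_dvd_mul_left h2
    have e3 := a3.mul_dvd e1 e2
    rwa [a1] at e3

end Pool.Agent.FI
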