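import Pool.Agent.helper40.FI.SpecLA

/-!
# Project fi (MP_baa4d7_al), row LC3

Equality in the count for `Z = ⊥` forces the values `g χ u` (`u ≠ 1`) to be prime to `M`.
-/

set_option autoImplicit false

namespace Pool.Agent.FI

open Finset
open Pool.Agent.GR

/-- the orbit map `t ↦ tw t l₁` is injective on `I` -/
theorem LC3_inj {D : Type} [CommGroup D] (I : Subgroup (MulAut D)) (l₁ : D →* ℂˣ)
    (h : ∀ t ∈ I, tw t l₁ = l₁ → t = 1) :
    Function.Injective (fun t : I => tw (t : MulAut D) l₁) := by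
  intro t t' htt
  have h1 : tw ((t : MulAut D) * (t' : MulAut D)⁻¹) l₁ = l₁ := by
    have h2 : tw (t : MulAut D) l₁ = tw (t' : MulAut D) l₁ := htt
    rw [tw_mul, h2, ← tw_mul, mul_inv_cancel, tw_one]
  have h3 := h _ (I.mul_mem t.2 (I.inv_mem t'.2)) h1
  exact Subtype.ext (mul_inv_eq_one.1 h3)

theorem LC3 (hLPC : LPC_stmt) (hLTO : LTO_stmt) (hLFI : LFI_stmt) (hLFR : LFR_stmt) : LC3_stmt := by
  classical
  intro p M D _ _ _ X _ Z I g hS hG hZ hcard χ u hu hM
  subst hZ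
  have hF : LFx I (1 : D →* ℂˣ) := fun t _ v => by simp
  have hA0 : ∀ (χ : X) (l : D →* ℂˣ), ∃ a : ℤ,
      ∑ v, g χ v * (lv l v⁻¹ - lv (1 : D →* ℂˣ) v⁻¹) = (Nat.card D : ℂ) * a := by
    intro χ l
    refine hG.gi χ l 1 ?_
    intro z hz
    rw [Subgroup.mem_bot.1 hz, lv_one, lv_one]
  choose A hA using hA0
  have hLA : LAi (⊥ : Subgroup D) 1 g A := fun χ l _ => hA χ l
  have hX : lX (⊥ : Subgroup D) 1 g = (Finset.univ : Finset X) := by
    refine Finset.eq_univ_of_forall fun ψ => mem_lX.2 ?_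
    intro z hz v
    rw [Subgroup.mem_bot.1 hz, one_mul, lv_one, one_mul]
  have hov : ∀ l : D →* ℂˣ, l ∈ ov (⊥ : Subgroup D) 1 := by
    intro l
    refine mem_ov.2 ?_
    intro z hz
    rw [Subgroup.mem_bot.1 hz, lv_one, lv_one]
  have huZ : u ∉ (⊥ : Subgroup D) := fun h => hu (Subgroup.mem_bot.1 h)
  have hD0 : (Nat.card D : ℂ) ≠ 0 := Nat.cast_ne_zero.2 Nat.card_pos.ne'
  have hD1 : 1 ≤ Nat.card D := Nat.card_pos
  have hA1 : ∀ ψ, A ψ 1 = 0 := by
    intro ψ
    have h1 := hA ψ 1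
    rw [Finset.sum_eq_zero fun v _ => by rw [sub_self, mul_zero]] at h1
    have h2 := (mul_eq_zero.1 h1.symm).resolve_left hD0
    exact_mod_cast h2
  have hP := hLPC p D X ⊥ I g 1 A hG hF hLA
  have hT := hLTO p D X ⊥ I g 1 A hG hF hLA
  rw [Subgroup.index_bot] at hP hT
  rw [hX] at hT
  have hcardZ : (Nat.card I : ℤ) * Nat.card X = ((Nat.card D : ℤ) - 1) + (Nat.card I : ℤ) ^ 2 := by
    have h1 : ((Nat.card I * Nat.card X : ℕ) : ℤ) = (((Nat.card D - 1) + Nat.card I ^ 2 : ℕ) : ℤ) := by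
      rw [hcard]
    push_cast [Nat.cast_sub hD1] at h1
    exact h1
  have hsum : ∑ _ψ : X, (((Nat.card D : ℤ) - 1) * Nat.card I) =
      ∑ ψ : X, (((Nat.card D : ℤ) - 1 + Nat.card I) * ∑ l ∈ ov (⊥ : Subgroup D) 1, A ψ l ^ 2 -
        (∑ l ∈ ov (⊥ : Subgroup D) 1, A ψ l) ^ 2) := by
    rw [hT, Finset.sum_const, Finset.card_univ, ← Nat.card_eq_fintype_card, nsmul_eq_mul, ← hcardZ]
    ring
  have hle : ∀ ψ ∈ (Finset.univ : Finset X), (((Nat.card D : ℤ) - 1) * Nat.card I) ≤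
      (((Nat.card D : ℤ) - 1 + Nat.card I) * ∑ l ∈ ov (⊥ : Subgroup D) 1, A ψ l ^ 2 -
        (∑ l ∈ ov (⊥ : Subgroup D) 1, A ψ l) ^ 2) := by
    intro ψ _
    exact (hP ψ (hX ▸ Finset.mem_univ ψ)).1
  have heq := (Finset.sum_eq_sum_iff_of_le hle).1 hsum χ (Finset.mem_univ χ)
  obtain ⟨e, he, hc⟩ := (hP χ (hX ▸ Finset.mem_univ χ)).2 heq.symm
  have hg := hLFI D X ⊥ g 1 A hLA χ (hX ▸ Finset.mem_univ χ) u huZ
  rcases hc with hc | ⟨l₁, _, hl1, hc1, hc2⟩
  · have h1 : g χ u = -(e : ℂ) := by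
      have h2 : ∀ l ∈ ov (⊥ : Subgroup D) 1, (A χ l : ℂ) * lv l u =
          (e : ℂ) * lv l u - (if l = 1 then (e : ℂ) else 0) := by
        intro l hl
        by_cases h3 : l = 1
        · subst h3
          rw [hA1, if_pos rfl, lv_hone]
          push_cast
          ring
        · rw [if_neg h3, hc l hl h3, sub_zero]
      rw [hg, Finset.sum_congr rfl h2, Finset.sum_sub_distrib, ← Finset.mul_sum, sum_ov _ _ _ huZ,
        Finset.sum_ite_eq' (ov (⊥ : Subgroup D) 1) 1, if_pos (hov 1)]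
      ring
    rw [h1] at hM
    rcases he with he | he
    · rw [he] at hM
      have h3 := hM.neg
      rw [neg_neg] at h3
      push_cast at h3
      exact InM.not_one hS h3
    · rw [he] at hM
      push_cast at hM
      rw [neg_neg] at hM
      exact InM.not_one hS hM
  · have : Fintype I := Fintype.ofFinite I
    have hinj : Function.Injective (fun t : I => tw (t : MulAut D) l₁) :=
      LC3_inj I l₁ fun t ht h => hLFR p D X ⊥ I g 1 l₁ t hG hF (hov l₁) hl1 ht h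
    let O : Finset (D →* ℂˣ) := Finset.univ.image (fun t : I => tw (t : MulAut D) l₁)
    have hO : O.card = Nat.card I := by
      rw [Finset.card_image_of_injective _ hinj, Finset.card_univ, Nat.card_eq_fintype_card]
    have hOe : ∀ l ∈ O, A χ l = e := by
      intro l hl
      obtain ⟨t, _, ht⟩ := Finset.mem_image.1 hl
      rw [← ht]
      exact hc1 t t.2
    have hsub : O ⊆ ov (⊥ : Subgroup D) 1 := fun l _ => hov l
    have h0 : ∀ l ∈ ov (⊥ : Subgroup D) 1, l ∉ O → (A χ l : ℂ) * lv l u = 0 := by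
      intro l hl hlO
      rw [hc2 l hl fun t ht h => hlO (Finset.mem_image.2 ⟨⟨t, ht⟩, Finset.mem_univ _, h⟩)]
      simp
    have h1 : g χ u = ∑ l ∈ O, (e : ℂ) * lv l u := by
      rw [hg, ← Finset.sum_subset hsub h0]
      exact Finset.sum_congr rfl fun l hl => by rw [hOe l hl]
    have h2 : InM M (∑ l ∈ O, (e : ℂ) * (lv l u - 1)) :=
      InM.sum hS O fun l _ => InM.mul_left hS (IntAt.intCast hS e) (lv_modM hS hG.pg l u)
    have h3 : g χ u - ∑ l ∈ O, (e : ℂ) * (lv l u - 1) = ((e * (Nat.card I : ℤ) : ℤ) : ℂ) := by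
      rw [h1, ← Finset.sum_sub_distrib, Finset.sum_congr rfl fun l _ => by
        rw [← mul_sub, sub_sub_cancel, mul_one], Finset.sum_const, hO, nsmul_eq_mul]
      push_cast
      ring
    have h4 := InM.sub hS hM h2
    rw [h3, InM.intCast hS] at h4
    refine hG.cop ?_
    have h5 : (p : ℤ) ∣ (Nat.card I : ℤ) := by
      rcases he with he | he
      · rwa [he, one_mul] at h4
      · rw [he, neg_one_mul] at h4
        exact (dvd_neg.1 h4)
    exact_mod_cast h5

end Pool.Agent.FI
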